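import Pool.Agent.H98.RFC.Targets

/-!
Board `rfc_modules` (`MP_057a7e_pr`), row ESI: the zero field Edwards–Sokal identity.
-/

set_option autoImplicit false

noncomputable section

open MeasureTheory ProbabilityTheory Filter Topology

namespace Pool.Agent.H7.RFC

open Pool.Agent.H98.RFC

namespace ESI

/-- the configuration is constant along the edges of `ω` -/
def cmpt (A : Set Site) (ω : Finset (Site × Site)) : Prop := ∀ e ∈ ω, (e.1 ∈ A ↔ e.2 ∈ A)

theorem sg_eq (A : Set Site) (y : Site) : (y ∈ A ∧ sg A y = 1) ∨ (y ∉ A ∧ sg A y = -1) := by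
  unfold sg
  by_cases h : y ∈ A
  · exact Or.inl ⟨h, if_pos h⟩
  · exact Or.inr ⟨h, if_neg h⟩

open Classical in
/-- the weight of an edge -/
theorem wexp (A : Set Site) (k : ℝ) (e : Site × Site) :
    Real.exp (k * sg A e.1 * sg A e.2) =
      (if (e.1 ∈ A ↔ e.2 ∈ A) then (Real.exp k - Real.exp (-k)) else 0) + Real.exp (-k) := by
  rcases sg_eq A e.1 with ⟨h1, h1'⟩ | ⟨h1, h1'⟩ <;> rcases sg_eq A e.2 with ⟨h2, h2'⟩ | ⟨h2, h2'⟩
  · rw [h1', h2', if_pos (by tauto)]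
    simp
  · rw [h1', h2', if_neg (by tauto)]
    simp
  · rw [h1', h2', if_neg (by tauto)]
    simp
  · rw [h1', h2', if_pos (by tauto)]
    simp

open Classical in
theorem prod_ite0 (A : Set Site) (ω : Finset (Site × Site)) (f : Site × Site → ℝ) :
    ∏ e ∈ ω, (if (e.1 ∈ A ↔ e.2 ∈ A) then f e else 0) =
      if cmpt A ω then ∏ e ∈ ω, f e else 0 := by
  by_cases hc : cmpt A ω
  · rw [if_pos hc]
    exact Finset.prod_congr rfl fun e he => if_pos (hc e he)
  · rw [if_neg hc]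
    unfold cmpt at hc
    push Not at hc
    obtain ⟨e, he, h⟩ := hc
    refine Finset.prod_eq_zero he (if_neg ?_)
    tauto

/-- the open edges are symmetric -/
theorem opn_symm {ω : Finset (Site × Site)} {a b : Site} (h : opn ω a b) : opn ω b a := Or.symm h

/-- a connection to the outside -/
theorem conn_of_path {Λ : Finset Site} {ω : Finset (Site × Site)} {a y : Site}
    (h : Relation.ReflTransGen (opn ω) a y) (hy : y ∉ Λ) : conn Set.univ Λ ω a := by
  induction h using Relation.ReflTransGen.head_induction_on with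
  | refl => exact ⟨y, hy, Relation.ReflTransGen.refl⟩
  | @head a b hab _ ih =>
    by_cases ha : a ∈ Λ
    · obtain ⟨z, hz, hp⟩ := ih
      exact ⟨z, hz, Relation.ReflTransGen.head ⟨ha, trivial, trivial, hab⟩ hp⟩
    · exact ⟨a, ha, Relation.ReflTransGen.refl⟩

theorem opn_iff {A : Set Site} {ω : Finset (Site × Site)} (hc : cmpt A ω) {a b : Site}
    (h : opn ω a b) : (a ∈ A ↔ b ∈ A) := by
  rcases h with h | h
  · exact hc _ h
  · exact (hc _ h).symm

/-- a connected point has the spin of the outside -/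
theorem conn_plus {A : Set Site} {Λ : Finset Site} {ω : Finset (Site × Site)} (hc : cmpt A ω)
    (hA : ∀ y, y ∉ Λ → y ∈ A) {x : Site} (h : conn Set.univ Λ ω x) :
    x ∈ A ∧ conn A Λ ω x := by
  obtain ⟨y, hy, hp⟩ := h
  induction hp using Relation.ReflTransGen.head_induction_on with
  | refl => exact ⟨hA y hy, ⟨y, hy, Relation.ReflTransGen.refl⟩⟩
  | @head a b hab _ ih =>
    obtain ⟨hb, z, hz, hpz⟩ := ih
    have ha : a ∈ A := (opn_iff hc hab.2.2.2).2 hb
    exact ⟨ha, z, hz, Relation.ReflTransGen.head ⟨hab.1, ha, hb, hab.2.2.2⟩ hpz⟩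

theorem conn_mono {D D' : Set Site} {Λ : Finset Site} {ω : Finset (Site × Site)} {x : Site}
    (hD : D ⊆ D') (h : conn D Λ ω x) : conn D' Λ ω x := by
  obtain ⟨y, hy, hp⟩ := h
  refine ⟨y, hy, ?_⟩
  clear hy
  induction hp with
  | refl => exact Relation.ReflTransGen.refl
  | tail _ hab ih => exact ih.tail ⟨hab.1, hD hab.2.1, hD hab.2.2.1, hab.2.2.2⟩

open Classical in
/-- the sum over the spins for fixed edges -/
theorem inner (U Λ : Finset Site) (P ω : Finset (Site × Site)) (x : Site) (hU : U ⊆ Λ)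
    (hx : x ∈ U) (hP : ∀ e ∈ P, (e.1 ∈ U ∨ e.1 ∉ Λ) ∧ (e.2 ∈ U ∨ e.2 ∉ Λ)) (hω : ω ⊆ P) :
    ∑ s ∈ U.powerset, (if cmpt (↑s ∪ (↑Λ)ᶜ) ω then sg (↑s ∪ (↑Λ)ᶜ) x else 0) =
      ∑ s ∈ U.powerset, (if cmpt (↑s ∪ (↑Λ)ᶜ) ω then
        (if conn Set.univ Λ ω x then (1 : ℝ) else 0) else 0) := by
  by_cases hcx : conn Set.univ Λ ω x
  · refine Finset.sum_congr rfl fun s _ => ?_
    by_cases hc : cmpt (↑s ∪ (↑Λ)ᶜ) ω
    · rw [if_pos hc, if_pos hc, if_pos hcx]
      have h1 : x ∈ (↑s ∪ (↑Λ)ᶜ : Set Site) := by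
        refine (conn_plus hc (fun y hy => Or.inr ?_) hcx).1
        simpa using hy
      unfold sg
      rw [if_pos h1]
    · rw [if_neg hc, if_neg hc]
  · have hz : ∑ s ∈ U.powerset, (if cmpt (↑s ∪ (↑Λ)ᶜ) ω then
        (if conn Set.univ Λ ω x then (1 : ℝ) else 0) else 0) = 0 := by
      refine Finset.sum_eq_zero fun s _ => ?_
      rw [if_neg hcx, ite_self]
    rw [hz]
    -- the component of `x`
    obtain ⟨K, hK⟩ : ∃ K : Finset Site, K = U.filter fun y => Relation.ReflTransGen (opn ω) x y :=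
      ⟨_, rfl⟩
    have hKU : ∀ y, y ∈ K → y ∈ U := fun y hy => by
      rw [hK] at hy
      exact (Finset.mem_filter.1 hy).1
    have hKx : x ∈ K := by
      rw [hK]
      exact Finset.mem_filter.2 ⟨hx, Relation.ReflTransGen.refl⟩
    have hstep : ∀ a b, a ∈ K → opn ω a b → b ∈ K := by
      intro a b ha hab
      rw [hK, Finset.mem_filter] at ha ⊢
      have hb : Relation.ReflTransGen (opn ω) x b := ha.2.tail hab
      refine ⟨?_, hb⟩
      have hbL : b ∈ Λ := by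
        by_contra hb'
        exact hcx (conn_of_path hb hb')
      rcases hab with h | h
      · rcases (hP _ (hω h)).2 with h' | h'
        · exact h'
        · exact absurd hbL h'
      · rcases (hP _ (hω h)).1 with h' | h'
        · exact h'
        · exact absurd hbL h'
    have hedge : ∀ e ∈ ω, (e.1 ∈ K ↔ e.2 ∈ K) := by
      intro e he
      exact ⟨fun h => hstep _ _ h (Or.inl he), fun h => hstep _ _ h (Or.inr he)⟩
    -- the flip
    have hflip : ∀ (s : Finset Site) (y : Site), (y ∈ (↑(symmDiff s K) ∪ (↑Λ)ᶜ : Set Site)) ↔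
        ((y ∈ (↑s ∪ (↑Λ)ᶜ : Set Site)) ↔ y ∉ K) := by
      intro s y
      simp only [Set.mem_union, Finset.mem_coe, Set.mem_compl_iff, Finset.mem_symmDiff]
      by_cases h1 : y ∈ K
      · have h2 : y ∈ Λ := hU (hKU y h1)
        tauto
      · tauto
    have hcmp : ∀ s : Finset Site, cmpt (↑(symmDiff s K) ∪ (↑Λ)ᶜ) ω ↔ cmpt (↑s ∪ (↑Λ)ᶜ) ω := by
      intro s
      unfold cmpt
      refine forall₂_congr fun e he => ?_
      rw [hflip s e.1, hflip s e.2]
      have h1 := hedge e he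
      by_cases h2 : e.2 ∈ K
      · have h3 := h1.2 h2
        simp only [h2, h3, not_true_eq_false, iff_false]
        exact not_iff_not
      · have h3 : e.1 ∉ K := fun h => h2 (h1.1 h)
        simp only [h2, h3, not_false_eq_true, iff_true]
    refine Finset.sum_involution (fun s _ => symmDiff s K) ?_ ?_ ?_ ?_
    · intro s _
      by_cases hc : cmpt (↑s ∪ (↑Λ)ᶜ) ω
      · rw [if_pos hc, if_pos ((hcmp s).2 hc)]
        have h1 := hflip s x
        rcases sg_eq (↑s ∪ (↑Λ)ᶜ) x with ⟨h2, h2'⟩ | ⟨h2, h2'⟩ <;>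
          rcases sg_eq (↑(symmDiff s K) ∪ (↑Λ)ᶜ) x with ⟨h3, h3'⟩ | ⟨h3, h3'⟩
        · exact absurd hKx (by tauto)
        · rw [h2', h3']
          norm_num
        · rw [h2', h3']
          norm_num
        · exact absurd hKx (by tauto)
      · rw [if_neg hc, if_neg (fun h => hc ((hcmp s).1 h)), add_zero]
    · intro s _ _ h
      have h1 : x ∈ symmDiff s K ↔ x ∈ s := by rw [h]
      rw [Finset.mem_symmDiff] at h1
      tauto
    · intro s hs
      rw [Finset.mem_powerset] at hs ⊢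
      intro y hy
      rw [Finset.mem_symmDiff] at hy
      rcases hy with h | h
      · exact hs h.1
      · exact hKU y h.1
    · intro s _
      exact symmDiff_symmDiff_cancel_right K s

open Classical in
/-- the sum over the edges for fixed spins -/
theorem outer (hMG : T_MG) (A : Set Site) (Λ : Finset Site) (P : Finset (Site × Site))
    (κ : Site × Site → ℝ) (x : Site) (hA : ∀ y, y ∉ Λ → y ∈ A) :
    ∑ ω ∈ P.powerset, ((∏ e ∈ ω, (Real.exp (κ e) - Real.exp (-κ e))) *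
        ∏ e ∈ P \ ω, Real.exp (-κ e)) *
          (if cmpt A ω then (if conn Set.univ Λ ω x then (1 : ℝ) else 0) else 0) =
      psi (fun e => Real.exp (-(2 * κ e))) P A Λ x *
        ∏ e ∈ P, Real.exp (κ e * sg A e.1 * sg A e.2) := by
  obtain ⟨Pa, hPa⟩ : ∃ Pa : Finset (Site × Site), Pa = P.filter fun e => (e.1 ∈ A ↔ e.2 ∈ A) :=
    ⟨_, rfl⟩
  have hsub : Pa ⊆ P := by rw [hPa]; exact Finset.filter_subset _ _
  have hmg := hMG (fun e => Real.exp (-(2 * κ e))) P Pa A Λ x hsub (fun e he h1 h2 => by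
    rw [hPa, Finset.mem_filter]
    exact ⟨he, by tauto⟩)
  rw [hmg]
  have hmem : ∀ ω, ω ⊆ P → (cmpt A ω ↔ ω ⊆ Pa) := by
    intro ω hω
    constructor
    · intro hc e he
      rw [hPa, Finset.mem_filter]
      exact ⟨hω he, hc e he⟩
    · intro hs e he
      have h1 := hs he
      rw [hPa, Finset.mem_filter] at h1
      exact h1.2
  have hw : ∏ e ∈ P, Real.exp (κ e * sg A e.1 * sg A e.2) =
      (∏ e ∈ Pa, Real.exp (κ e)) * ∏ e ∈ P \ Pa, Real.exp (-κ e) := by
    rw [← Finset.prod_sdiff hsub, mul_comm]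
    congr 1
    · refine Finset.prod_congr rfl fun e he => ?_
      rw [hPa, Finset.mem_filter] at he
      rw [wexp, if_pos he.2]
      ring
    · refine Finset.prod_congr rfl fun e he => ?_
      rw [hPa, Finset.mem_sdiff, Finset.mem_filter] at he
      rw [wexp, if_neg (fun h => he.2 ⟨he.1, h⟩), zero_add]
  have hL : ∑ ω ∈ P.powerset, ((∏ e ∈ ω, (Real.exp (κ e) - Real.exp (-κ e))) *
        ∏ e ∈ P \ ω, Real.exp (-κ e)) *
          (if cmpt A ω then (if conn Set.univ Λ ω x then (1 : ℝ) else 0) else 0) =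
      ∑ ω ∈ Pa.powerset, ((∏ e ∈ ω, (Real.exp (κ e) - Real.exp (-κ e))) *
        ∏ e ∈ P \ ω, Real.exp (-κ e)) * (if conn Set.univ Λ ω x then (1 : ℝ) else 0) := by
    symm
    refine Finset.sum_subset_zero_on_sdiff (Finset.powerset_mono.2 hsub) ?_ ?_
    · intro ω hω
      rw [Finset.mem_sdiff, Finset.mem_powerset, Finset.mem_powerset] at hω
      rw [if_neg (fun h => hω.2 ((hmem ω hω.1).1 h)), mul_zero]
    · intro ω hω
      rw [Finset.mem_powerset] at hω
      rw [if_pos ((hmem ω (hω.trans hsub)).2 hω)]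
  rw [hL, hw]
  unfold psi
  rw [Finset.sum_mul]
  refine Finset.sum_congr rfl fun ω hω => ?_
  rw [Finset.mem_powerset] at hω
  have hc : cmpt A ω := (hmem ω (hω.trans hsub)).2 hω
  have hconn : (conn Set.univ Λ ω x) ↔ conn A Λ ω x :=
    ⟨fun h => (conn_plus hc hA h).2, fun h => conn_mono (Set.subset_univ _) h⟩
  have hif : (if conn Set.univ Λ ω x then (1 : ℝ) else 0) = if conn A Λ ω x then 1 else 0 :=
    if_congr hconn rfl rfl
  rw [hif]
  have hsd : P \ ω = (Pa \ ω) ∪ (P \ Pa) := by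
    ext e
    simp only [Finset.mem_sdiff, Finset.mem_union]
    constructor
    · rintro ⟨h1, h2⟩
      by_cases h3 : e ∈ Pa
      · exact Or.inl ⟨h3, h2⟩
      · exact Or.inr ⟨h1, h3⟩
    · rintro (⟨h1, h2⟩ | ⟨h1, h2⟩)
      · exact ⟨hsub h1, h2⟩
      · exact ⟨h1, fun h => h2 (hω h)⟩
  have hdis : Disjoint (Pa \ ω) (P \ Pa) := by
    rw [Finset.disjoint_left]
    intro e h1 h2
    exact (Finset.mem_sdiff.1 h2).2 (Finset.mem_sdiff.1 h1).1
  rw [hsd, Finset.prod_union hdis]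
  unfold bw
  have e1 : ∏ e ∈ ω, (Real.exp (κ e) - Real.exp (-κ e)) =
      (∏ e ∈ ω, Real.exp (κ e)) * ∏ e ∈ ω, (1 - Real.exp (-(2 * κ e))) := by
    rw [← Finset.prod_mul_distrib]
    refine Finset.prod_congr rfl fun e _ => ?_
    rw [mul_sub, mul_one, ← Real.exp_add]
    congr 2
    ring
  have e2 : ∏ e ∈ Pa \ ω, Real.exp (-κ e) =
      (∏ e ∈ Pa \ ω, Real.exp (κ e)) * ∏ e ∈ Pa \ ω, Real.exp (-(2 * κ e)) := by
    rw [← Finset.prod_mul_distrib]
    refine Finset.prod_congr rfl fun e _ => ?_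
    rw [← Real.exp_add]
    congr 1
    ring
  have e3 : ∏ e ∈ Pa, Real.exp (κ e) =
      (∏ e ∈ Pa \ ω, Real.exp (κ e)) * ∏ e ∈ ω, Real.exp (κ e) :=
    (Finset.prod_sdiff hω).symm
  rw [e1, e2, e3]
  ring

end ESI

open ESI in
/-- ESI -/
theorem pf_ESI (hMG : T_MG) : T_ESI := by
  classical
  intro U Λ P κ x hU hx hP
  have hA : ∀ (s : Finset Site) (y : Site), y ∉ Λ → y ∈ (↑s ∪ (↑Λ)ᶜ : Set Site) :=
    fun s y hy => Or.inr (by simpa using hy)
  have hexp : ∀ s : Finset Site, sg (↑s ∪ (↑Λ)ᶜ) x *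
      ∏ e ∈ P, Real.exp (κ e * sg (↑s ∪ (↑Λ)ᶜ) e.1 * sg (↑s ∪ (↑Λ)ᶜ) e.2) =
      ∑ ω ∈ P.powerset, ((∏ e ∈ ω, (Real.exp (κ e) - Real.exp (-κ e))) *
        ∏ e ∈ P \ ω, Real.exp (-κ e)) *
          (if cmpt (↑s ∪ (↑Λ)ᶜ) ω then sg (↑s ∪ (↑Λ)ᶜ) x else 0) := by
    intro s
    rw [Finset.prod_congr rfl fun e _ => wexp (↑s ∪ (↑Λ)ᶜ) (κ e) e, Finset.prod_add,
      Finset.mul_sum]
    refine Finset.sum_congr rfl fun ω _ => ?_
    rw [prod_ite0]
    by_cases hc : cmpt (↑s ∪ (↑Λ)ᶜ) ω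
    · rw [if_pos hc, if_pos hc]
      ring
    · rw [if_neg hc, if_neg hc]
      ring
  rw [Finset.sum_congr rfl fun s _ => hexp s, Finset.sum_comm]
  have hin : ∀ ω ∈ P.powerset, ∑ s ∈ U.powerset,
      ((∏ e ∈ ω, (Real.exp (κ e) - Real.exp (-κ e))) * ∏ e ∈ P \ ω, Real.exp (-κ e)) *
          (if cmpt (↑s ∪ (↑Λ)ᶜ) ω then sg (↑s ∪ (↑Λ)ᶜ) x else 0) =
      ∑ s ∈ U.powerset,
      ((∏ e ∈ ω, (Real.exp (κ e) - Real.exp (-κ e))) * ∏ e ∈ P \ ω, Real.exp (-κ e)) *
          (if cmpt (↑s ∪ (↑Λ)ᶜ) ω then (if conn Set.univ Λ ω x then (1 : ℝ) else 0) else 0) := by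
    intro ω hω
    rw [← Finset.mul_sum, ← Finset.mul_sum,
      inner U Λ P ω x hU hx hP (Finset.mem_powerset.1 hω)]
  rw [Finset.sum_congr rfl hin, Finset.sum_comm]
  exact Finset.sum_congr rfl fun s _ => outer hMG (↑s ∪ (↑Λ)ᶜ) Λ P κ x (hA s)

end Pool.Agent.H7.RFC
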